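import Mathlib

set_option autoImplicit false

/-! # Total influence -/

namespace Pool.Agent.L0h73.UN

open Finset

variable {n : ℕ}

/-- change one bit -/
def fl (i : Fin n) : Equiv.Perm (Fin n → Bool) where
  toFun t := Function.update t i (!t i)
  invFun t := Function.update t i (!t i)
  left_inv t := by simp
  right_inv t := by simp

theorem fl_apply (i : Fin n) (t : Fin n → Bool) : fl i t = Function.update t i (!t i) := rfl

theorem fl_self (i : Fin n) (t : Fin n → Bool) : fl i t i = !t i := by simp [fl]

theorem fl_ne {i j : Fin n} (h : j ≠ i) (t : Fin n → Bool) : fl i t j = t j := by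
  simp [fl, Function.update_of_ne h]

theorem fl_fl (i : Fin n) (t : Fin n → Bool) : fl i (fl i t) = t := by
  simp [fl]

theorem fl_comm (i j : Fin n) (t : Fin n → Bool) : fl i (fl j t) = fl j (fl i t) := by
  by_cases h : i = j
  · rw [h]
  · funext l
    by_cases h1 : l = i
    · subst h1
      rw [fl_self, fl_ne h, fl_ne h, fl_self]
    · rw [fl_ne h1]
      by_cases h2 : l = j
      · subst h2
        rw [fl_self, fl_self, fl_ne h1]
      · rw [fl_ne h2, fl_ne h2, fl_ne h1]

/-- the number of the points at which the bit is pivotal -/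
def piv (g : (Fin n → Bool) → Bool) (i : Fin n) : ℕ :=
  (univ.filter (fun t : Fin n → Bool => g (fl i t) ≠ g t)).card

/-- signs -/
def sgn (b : Bool) : ℝ := if b then 1 else -1

theorem sgn_mul_self (b : Bool) : sgn b * sgn b = 1 := by cases b <;> norm_num [sgn]

theorem sgn_not (b : Bool) : sgn (!b) = -sgn b := by cases b <;> norm_num [sgn]

theorem abs_sgn (b : Bool) : |sgn b| = 1 := by cases b <;> norm_num [sgn]

theorem piv_eq (g : (Fin n → Bool) → Bool) (i : Fin n) :
    (piv g i : ℝ) = ∑ t : Fin n → Bool, if g (fl i t) ≠ g t then (1 : ℝ) else 0 := by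
  unfold piv
  rw [card_filter]
  push_cast
  rfl

/-- the direction of the change -/
theorem piv_sum (g G : (Fin n → Bool) → Bool) (i : Fin n) (hG : ∀ t, G (fl i t) = G t)
    (h : ∀ t, g (fl i t) ≠ g t → g t = (if t i then G t else !G t)) :
    (piv g i : ℝ) = ∑ t : Fin n → Bool, sgn (g t) * (sgn (t i) * sgn (G t)) := by
  have h1 : ∑ t : Fin n → Bool, sgn (g t) * (sgn (t i) * sgn (G t)) =
      ∑ t : Fin n → Bool, sgn (g (fl i t)) * (sgn (fl i t i) * sgn (G (fl i t))) :=
    (Equiv.sum_comp (fl i) (fun t => sgn (g t) * (sgn (t i) * sgn (G t)))).symm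
  have h2 : 2 * ∑ t : Fin n → Bool, sgn (g t) * (sgn (t i) * sgn (G t)) =
      2 * ∑ t : Fin n → Bool, if g (fl i t) ≠ g t then (1 : ℝ) else 0 := by
    rw [two_mul]
    nth_rewrite 2 [h1]
    rw [← sum_add_distrib, mul_sum]
    apply sum_congr rfl
    intro t _
    rw [hG, fl_self]
    by_cases h3 : g (fl i t) = g t
    · rw [h3]
      simp only [ne_eq, not_true_eq_false, if_false]
      rw [sgn_not]
      ring
    · rw [if_pos h3]
      have h4 := h t h3
      have h5 : g (fl i t) = !g t := Bool.eq_not.2 h3
      rw [h5, h4]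
      cases t i <;> cases G t <;> norm_num [sgn]
  rw [piv_eq]
  linarith

/-- the main inequality -/
theorem core (g : (Fin n → Bool) → Bool) (G : Fin n → (Fin n → Bool) → Bool) (W : Finset (Fin n))
    (hG : ∀ i t, G i (fl i t) = G i t)
    (h : ∀ i t, g (fl i t) ≠ g t → g t = (if t i then G i t else !G i t)) :
    (∑ i ∈ W, (piv g i : ℝ)) ^ 2 ≤
      2 ^ n * (2 ^ n * W.card + ∑ i ∈ W, ∑ j ∈ W, (if i = j then 0 else (piv (G i) j : ℝ))) := by
  set S : (Fin n → Bool) → ℝ := fun t => ∑ i ∈ W, sgn (t i) * sgn (G i t) with hS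
  have h1 : ∑ i ∈ W, (piv g i : ℝ) = ∑ t : Fin n → Bool, sgn (g t) * S t := by
    rw [sum_congr rfl (fun i _ => piv_sum g (G i) i (hG i) (h i)), sum_comm]
    apply sum_congr rfl
    intro t _
    rw [hS, mul_sum]
  have hN : ((univ : Finset (Fin n → Bool)).card : ℝ) = 2 ^ n := by
    rw [card_univ, Fintype.card_fun, Fintype.card_bool, Fintype.card_fin]
    push_cast
    rfl
  have h2 : (∑ i ∈ W, (piv g i : ℝ)) ^ 2 ≤ 2 ^ n * ∑ t : Fin n → Bool, S t ^ 2 := by
    rw [h1, ← hN]
    refine (sq_sum_le_card_mul_sum_sq).trans ?_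
    apply mul_le_mul_of_nonneg_left _ (by positivity)
    apply sum_le_sum
    intro t _
    rw [mul_pow]
    have : sgn (g t) ^ 2 = 1 := by rw [sq]; exact sgn_mul_self _
    rw [this, one_mul]
  refine h2.trans ?_
  apply mul_le_mul_of_nonneg_left _ (by positivity)
  -- the second moment
  have h3 : ∑ t : Fin n → Bool, S t ^ 2 = ∑ i ∈ W, ∑ j ∈ W, ∑ t : Fin n → Bool,
      (sgn (t i) * sgn (G i t)) * (sgn (t j) * sgn (G j t)) := by
    calc ∑ t : Fin n → Bool, S t ^ 2 = ∑ t : Fin n → Bool, ∑ i ∈ W, ∑ j ∈ W,
          (sgn (t i) * sgn (G i t)) * (sgn (t j) * sgn (G j t)) := by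
          apply sum_congr rfl
          intro t _
          rw [sq, hS, sum_mul_sum]
      _ = _ := by
          rw [sum_comm]
          apply sum_congr rfl
          intro i _
          rw [sum_comm]
  have hcross : ∀ i j : Fin n, i ≠ j → ∑ t : Fin n → Bool,
      (sgn (t i) * sgn (G i t)) * (sgn (t j) * sgn (G j t)) ≤
        ((piv (G i) j : ℝ) + (piv (G j) i : ℝ)) / 2 := by
    intro i j hij
    set F : (Fin n → Bool) → ℝ := fun t =>
      (sgn (t i) * sgn (G i t)) * (sgn (t j) * sgn (G j t)) with hF
    have e1 : ∑ t, F (fl i t) = ∑ t, F t := Equiv.sum_comp (fl i) F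
    have e2 : ∑ t, F (fl j t) = ∑ t, F t := Equiv.sum_comp (fl j) F
    have e3 : ∑ t, F (fl i (fl j t)) = ∑ t, F t := by
      rw [Equiv.sum_comp (fl j) (fun t => F (fl i t)), e1]
    have e4 : 4 * ∑ t, F t = ∑ t, (F t + F (fl i t) + F (fl j t) + F (fl i (fl j t))) := by
      simp only [sum_add_distrib]
      rw [e1, e2, e3]
      ring
    have e5 : ∀ t : Fin n → Bool, F t + F (fl i t) + F (fl j t) + F (fl i (fl j t)) ≤
        2 * ((if G i (fl j t) ≠ G i t then (1 : ℝ) else 0) +
          (if G j (fl i t) ≠ G j t then (1 : ℝ) else 0)) := by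
      intro t
      have f1 : fl i t i = !t i := fl_self i t
      have f2 : fl i t j = t j := fl_ne hij.symm t
      have f3 : fl j t i = t i := fl_ne hij t
      have f4 : fl j t j = !t j := fl_self j t
      have f5 : fl i (fl j t) i = !t i := by rw [fl_self, f3]
      have f6 : fl i (fl j t) j = !t j := by rw [fl_ne hij.symm, f4]
      have g1 : G i (fl i (fl j t)) = G i (fl j t) := hG i _
      have g2 : G j (fl i (fl j t)) = G j (fl i t) := by rw [fl_comm]; exact hG j _
      simp only [hF]
      rw [f1, f2, f3, f4, f5, f6, g1, g2, hG i t, hG j t]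
      cases t i <;> cases t j <;> cases G i t <;> cases G j t <;> cases G i (fl j t) <;>
        cases G j (fl i t) <;> norm_num [sgn]
    have e6 : 4 * ∑ t, F t ≤ 2 * ((piv (G i) j : ℝ) + (piv (G j) i : ℝ)) := by
      rw [e4, piv_eq, piv_eq, ← sum_add_distrib, mul_sum]
      exact sum_le_sum fun t _ => e5 t
    linarith
  rw [h3]
  calc ∑ i ∈ W, ∑ j ∈ W, ∑ t : Fin n → Bool,
        (sgn (t i) * sgn (G i t)) * (sgn (t j) * sgn (G j t))
      ≤ ∑ i ∈ W, ∑ j ∈ W, ((if i = j then (2 : ℝ) ^ n else 0) +
          ((if i = j then 0 else (piv (G i) j : ℝ)) / 2 +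
            (if j = i then 0 else (piv (G j) i : ℝ)) / 2)) := by
        apply sum_le_sum
        intro i _
        apply sum_le_sum
        intro j _
        by_cases hij : i = j
        · subst hij
          simp only [if_true, zero_div, add_zero]
          have : ∀ t : Fin n → Bool, (sgn (t i) * sgn (G i t)) * (sgn (t i) * sgn (G i t)) = 1 := by
            intro t
            cases t i <;> cases G i t <;> norm_num [sgn]
          rw [sum_congr rfl (fun t _ => this t), sum_const, nsmul_eq_mul, hN, mul_one]
        · rw [if_neg hij, if_neg hij, if_neg (fun h => hij h.symm)]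
          have := hcross i j hij
          linarith
    _ = 2 ^ n * W.card + ∑ i ∈ W, ∑ j ∈ W, (if i = j then 0 else (piv (G i) j : ℝ)) := by
        simp only [sum_add_distrib]
        have e1 : ∑ i ∈ W, ∑ j ∈ W, (if i = j then (2 : ℝ) ^ n else 0) = 2 ^ n * W.card := by
          have : ∀ i ∈ W, ∑ j ∈ W, (if i = j then (2 : ℝ) ^ n else 0) = 2 ^ n := by
            intro i hi
            rw [sum_ite_eq, if_pos hi]
          rw [sum_congr rfl this, sum_const, nsmul_eq_mul]
          ring
        have e2 : ∑ i ∈ W, ∑ j ∈ W, (if j = i then (0 : ℝ) else (piv (G j) i : ℝ)) / 2 =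
            ∑ i ∈ W, ∑ j ∈ W, (if i = j then (0 : ℝ) else (piv (G i) j : ℝ)) / 2 := sum_comm
        rw [e1, e2]
        have e3 : ∑ i ∈ W, ∑ j ∈ W, (if i = j then (0 : ℝ) else (piv (G i) j : ℝ)) / 2 =
            (∑ i ∈ W, ∑ j ∈ W, (if i = j then (0 : ℝ) else (piv (G i) j : ℝ))) / 2 := by
          simp only [sum_div]
        rw [e3]
        ring

/-- the total influence of unate functions -/
theorem unate_sum (g : (Fin n → Bool) → Bool) (W : Finset (Fin n)) (e : Fin n → Bool)
    (h : ∀ i t, g (fl i t) ≠ g t → g t = (if t i then e i else !e i)) :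
    ∑ i ∈ W, (piv g i : ℝ) ≤ 2 ^ n * √(W.card : ℝ) := by
  have h1 := core g (fun i _ => e i) W (fun _ _ => rfl) h
  have h2 : ∑ i ∈ W, ∑ j ∈ W, (if i = j then (0 : ℝ) else (piv (fun _ => e i) j : ℝ)) = 0 := by
    apply sum_eq_zero
    intro i _
    apply sum_eq_zero
    intro j _
    have : piv (fun _ : Fin n → Bool => e i) j = 0 := by simp [piv]
    rw [this]
    simp
  rw [h2, add_zero] at h1
  have h3 : (∑ i ∈ W, (piv g i : ℝ)) ^ 2 ≤ (2 ^ n * √(W.card : ℝ)) ^ 2 := by
    rw [mul_pow, Real.sq_sqrt (by positivity)]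
    calc _ ≤ _ := h1
      _ = _ := by ring
  exact le_of_sq_le_sq h3 (by positivity)

/-- multilinear polynomials -/
noncomputable def mpoly (a : Fin n → Bool → ℝ) (c : Finset (Fin n) → ℝ) (t : Fin n → Bool) : ℝ :=
  ∑ S : Finset (Fin n), c S * ∏ i ∈ S, a i (t i)

/-- the coefficients of the derivative -/
def dcoef (a : Fin n → Bool → ℝ) (c : Finset (Fin n) → ℝ) (i : Fin n) (T : Finset (Fin n)) : ℝ :=
  if i ∈ T then 0 else c (insert i T) * (a i true - a i false)

theorem sum_split (i : Fin n) (F : Finset (Fin n) → ℝ) :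
    ∑ S : Finset (Fin n), F S = ∑ T ∈ (univ.erase i).powerset, (F T + F (insert i T)) := by
  have h1 : (univ : Finset (Finset (Fin n))) = (insert i (univ.erase i)).powerset := by
    rw [insert_erase (mem_univ i), powerset_univ]
  rw [h1, sum_powerset_insert (notMem_erase i univ), ← sum_add_distrib]

theorem mpoly_update (a : Fin n → Bool → ℝ) (c : Finset (Fin n) → ℝ) (i : Fin n)
    (t : Fin n → Bool) :
    mpoly a c (Function.update t i true) - mpoly a c (Function.update t i false) =
      mpoly a (dcoef a c i) t := by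
  unfold mpoly
  rw [sum_split i, sum_split i, sum_split i, ← sum_sub_distrib]
  apply sum_congr rfl
  intro T hT
  rw [mem_powerset] at hT
  have hi : i ∉ T := fun h => (mem_erase.1 (hT h)).1 rfl
  have h1 : ∀ b : Bool, ∏ j ∈ T, a j (Function.update t i b j) = ∏ j ∈ T, a j (t j) := by
    intro b
    apply prod_congr rfl
    intro j hj
    rw [Function.update_of_ne (fun h : j = i => hi (by rw [← h]; exact hj))]
  rw [prod_insert hi, prod_insert hi, prod_insert hi, h1, h1, Function.update_self,
    Function.update_self]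
  unfold dcoef
  rw [if_neg hi, if_pos (mem_insert_self i T)]
  ring

/-- the total influence of polynomial threshold functions -/
theorem poly_sum (a : Fin n → Bool → ℝ) (W : Finset (Fin n)) : ∀ (d : ℕ)
    (c : Finset (Fin n) → ℝ), (∀ S : Finset (Fin n), d < S.card → c S = 0) → ∀ θ : ℝ,
    ∑ i ∈ W, (piv (fun t => decide (θ < mpoly a c t)) i : ℝ) ≤
      2 ^ n * (2 * (W.card : ℝ) ^ (1 - (1 / 2 : ℝ) ^ d))
  | 0, c, hc, θ => by
      have h1 : ∀ t, mpoly a c t = c ∅ := by
        intro t
        unfold mpoly
        rw [sum_eq_single ∅]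
        · simp
        · intro S _ hS
          rw [hc S (card_pos.2 (nonempty_iff_ne_empty.2 hS)), zero_mul]
        · intro h
          exact absurd (mem_univ _) h
      have h2 : ∀ i, piv (fun t => decide (θ < mpoly a c t)) i = 0 := by
        intro i
        unfold piv
        simp [h1]
      simp only [h2]
      simp
  | d + 1, c, hc, θ => by
      rcases W.eq_empty_or_nonempty with hW | hW
      · subst hW
        simp only [sum_empty, card_empty]
        positivity
      have hWc : (1 : ℝ) ≤ W.card := by exact_mod_cast card_pos.2 hW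
      have hW0 : (0 : ℝ) < W.card := by linarith
      set G : Fin n → (Fin n → Bool) → Bool := fun i t => decide (0 < mpoly a (dcoef a c i) t) with hG
      have hGf : ∀ i t, G i (fl i t) = G i t := by
        intro i t
        simp only [hG]
        rw [← mpoly_update, ← mpoly_update, fl_apply, Function.update_idem, Function.update_idem]
      have hpiv : ∀ i t, decide (θ < mpoly a c (fl i t)) ≠ decide (θ < mpoly a c t) →
          decide (θ < mpoly a c t) = (if t i then G i t else !G i t) := by
        intro i t hne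
        have h1 := mpoly_update a c i t
        cases ht : t i with
        | true =>
          have e1 : Function.update t i true = t := by rw [← ht, Function.update_eq_self]
          have e2 : fl i t = Function.update t i false := by rw [fl_apply, ht]; rfl
          rw [e1, ← e2] at h1
          simp only [if_true, hG]
          rw [← h1]
          by_cases h2 : θ < mpoly a c t
          · have h3 : ¬ θ < mpoly a c (fl i t) := by
              intro h3
              exact hne (by rw [decide_eq_true h2, decide_eq_true h3])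
            rw [decide_eq_true h2, decide_eq_true (by linarith [not_lt.1 h3])]
          · have h3 : θ < mpoly a c (fl i t) := by
              by_contra h3
              exact hne (by rw [decide_eq_false h2, decide_eq_false h3])
            rw [decide_eq_false h2, decide_eq_false (by linarith [not_lt.1 h2])]
        | false =>
          have e1 : Function.update t i false = t := by rw [← ht, Function.update_eq_self]
          have e2 : fl i t = Function.update t i true := by rw [fl_apply, ht]; rfl
          rw [e1, ← e2] at h1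
          simp only [Bool.false_eq_true, if_false, hG]
          rw [← h1]
          by_cases h2 : θ < mpoly a c t
          · have h3 : ¬ θ < mpoly a c (fl i t) := by
              intro h3
              exact hne (by rw [decide_eq_true h2, decide_eq_true h3])
            rw [decide_eq_true h2, decide_eq_false (by linarith [not_lt.1 h3])]
            rfl
          · have h3 : θ < mpoly a c (fl i t) := by
              by_contra h3
              exact hne (by rw [decide_eq_false h2, decide_eq_false h3])
            rw [decide_eq_false h2, decide_eq_true (by linarith [not_lt.1 h2])]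
            rfl
      have h1 := core (fun t => decide (θ < mpoly a c t)) G W hGf hpiv
      have h2 : ∀ i ∈ W, ∑ j ∈ W, (if i = j then (0 : ℝ) else (piv (G i) j : ℝ)) ≤
          2 ^ n * (2 * (W.card : ℝ) ^ (1 - (1 / 2 : ℝ) ^ d)) := by
        intro i _
        refine le_trans (sum_le_sum fun j _ => ?_) (poly_sum a W d (dcoef a c i) ?_ 0)
        · split_ifs
          · exact Nat.cast_nonneg _
          · exact le_rfl
        · intro S hS
          unfold dcoef
          split_ifs with h3
          · rfl
          · rw [hc (insert i S) (by rw [card_insert_of_notMem h3]; omega), zero_mul]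
      have h3 : (∑ i ∈ W, (piv (fun t => decide (θ < mpoly a c t)) i : ℝ)) ^ 2 ≤
          (2 ^ n * (2 * (W.card : ℝ) ^ (1 - (1 / 2 : ℝ) ^ (d + 1)))) ^ 2 := by
        refine h1.trans ?_
        have h4 : ∑ i ∈ W, ∑ j ∈ W, (if i = j then (0 : ℝ) else (piv (G i) j : ℝ)) ≤
            W.card * (2 ^ n * (2 * (W.card : ℝ) ^ (1 - (1 / 2 : ℝ) ^ d))) := by
          refine (sum_le_sum h2).trans ?_
          rw [sum_const, nsmul_eq_mul]
        have e1 : (2 ^ n * (2 * (W.card : ℝ) ^ (1 - (1 / 2 : ℝ) ^ (d + 1)))) ^ 2 =
            2 ^ n * (2 ^ n * (4 * (W.card : ℝ) ^ (2 - (1 / 2 : ℝ) ^ d))) := by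
          have e2 : ((W.card : ℝ) ^ (1 - (1 / 2 : ℝ) ^ (d + 1))) ^ 2 =
              (W.card : ℝ) ^ (2 - (1 / 2 : ℝ) ^ d) := by
            rw [← Real.rpow_natCast, ← Real.rpow_mul hW0.le]
            congr 1
            rw [pow_succ]
            push_cast
            ring
          rw [← e2]
          ring
        rw [e1]
        apply mul_le_mul_of_nonneg_left _ (by positivity)
        have e3 : (W.card : ℝ) ≤ (W.card : ℝ) ^ (2 - (1 / 2 : ℝ) ^ d) := by
          conv_lhs => rw [← Real.rpow_one (W.card : ℝ)]
          apply Real.rpow_le_rpow_of_exponent_le hWc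
          have : (1 / 2 : ℝ) ^ d ≤ 1 := pow_le_one₀ (by norm_num) (by norm_num)
          linarith
        have e4 : (W.card : ℝ) * (W.card : ℝ) ^ (1 - (1 / 2 : ℝ) ^ d) =
            (W.card : ℝ) ^ (2 - (1 / 2 : ℝ) ^ d) := by
          rw [← Real.rpow_one_add' hW0.le]
          · congr 1
            ring
          · have : (1 / 2 : ℝ) ^ d ≤ 1 := pow_le_one₀ (by norm_num) (by norm_num)
            linarith
        calc 2 ^ n * (W.card : ℝ) +
              ∑ i ∈ W, ∑ j ∈ W, (if i = j then (0 : ℝ) else (piv (G i) j : ℝ))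
            ≤ 2 ^ n * (W.card : ℝ) +
              W.card * (2 ^ n * (2 * (W.card : ℝ) ^ (1 - (1 / 2 : ℝ) ^ d))) :=
              add_le_add_right h4 _
          _ = 2 ^ n * ((W.card : ℝ) + 2 * ((W.card : ℝ) * (W.card : ℝ) ^ (1 - (1 / 2 : ℝ) ^ d))) := by
              ring
          _ ≤ 2 ^ n * (4 * (W.card : ℝ) ^ (2 - (1 / 2 : ℝ) ^ d)) := by
              apply mul_le_mul_of_nonneg_left _ (by positivity)
              rw [e4]
              linarith [Real.rpow_nonneg hW0.le (2 - (1 / 2 : ℝ) ^ d)]
      exact le_of_sq_le_sq h3 (by positivity)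

end Pool.Agent.L0h73.UN
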