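import Pool.Agent.L0h73.UN.Defs
import Pool.Agent.L0h73.UN.Infl
import Pool.Agent.L0h73.LT.Inst2

set_option autoImplicit false

/-! # How often does the result of a gate depend on the live number? -/

namespace Pool.Agent.L0h73.UN

open Finset Pool.Agent.TH697.Form.ThreeSum Pool.Agent.L0h73.LT

variable {n k : ℕ}

/-- the junk numbers -/
def jk (n k : ℕ) (ω : Fin n → Bool × Fin (2 ^ k)) (i : Fin n) : ℤ :=
  av n k (jm i (ω i).1) (ω i).2

theorem inp_upd (z : Fin (2 ^ k) → Bool) (i₀ : Fin n) (ω : Fin n → Bool × Fin (2 ^ k))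
    (y : Fin (2 ^ k)) : (fun i => inp n k z i₀ ω y (some i)) =
      Function.update (jk n k ω) i₀ (av n k 0 y) := by
  funext i
  by_cases h : i = i₀
  · subst h
    simp [inp]
  · simp [inp, jk, h]

theorem inp_none (z : Fin (2 ^ k) → Bool) (i₀ : Fin n) (ω : Fin n → Bool × Fin (2 ^ k))
    (y : Fin (2 ^ k)) : (inp n k z i₀ ω y none : Fin n → ℤ) = bv n k z := rfl

/-- the result of the gate depends on the live number -/
def Alive (f : Fn n) (z : Fin (2 ^ k) → Bool) (i₀ : Fin n) (ω : Fin n → Bool × Fin (2 ^ k)) :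
    Prop :=
  ∃ y y' : Fin (2 ^ k), f (bv n k z) (Function.update (jk n k ω) i₀ (av n k 0 y)) ≠
    f (bv n k z) (Function.update (jk n k ω) i₀ (av n k 0 y'))

theorem av_lt {m m' : ℤ} (h : m < m') (y y' : Fin (2 ^ k)) : av n k m y ≤ av n k m' y' := by
  unfold av
  have h1 : ((y : ℕ) : ℤ) < 2 ^ k := by exact_mod_cast y.2
  have h2 : (0 : ℤ) ≤ ((y' : ℕ) : ℤ) := Int.natCast_nonneg _
  have h3 : (2 : ℤ) ^ k ≤ 2 ^ (k + 1) := by
    rw [pow_succ]
    have : (0 : ℤ) ≤ 2 ^ k := by positivity
    linarith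
  have h4 : (m + 1) * 2 ^ (k + 1) ≤ m' * (2 : ℤ) ^ (k + 1) :=
    mul_le_mul_of_nonneg_right (by omega) (by positivity)
  linarith

theorem sandwich (f : Fn n) (hf : LocMono f) (z : Fin (2 ^ k) → Bool) (i₀ : Fin n)
    (ω : Fin n → Bool × Fin (2 ^ k)) (h : Alive f z i₀ ω) (l : Fin (2 ^ k)) :
    f (bv n k z) (Function.update (jk n k ω) i₀ (av n k (jm i₀ true) l)) ≠
      f (bv n k z) (Function.update (jk n k ω) i₀ (av n k (jm i₀ false) l)) := by
  intro heq
  obtain ⟨y, y', hne⟩ := h
  apply hne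
  have h1 : (0 : ℤ) < jm i₀ true := by simp only [jm, if_true]; positivity
  have h2 : jm i₀ false < (0 : ℤ) := by
    simp only [jm, Bool.false_eq_true, if_false]
    have : (0 : ℤ) ≤ ((i₀ : ℕ) : ℤ) := Int.natCast_nonneg _
    linarith
  rcases hf (bv n k z) (jk n k ω) i₀ with hm | hm
  · have a1 := fun w : Fin (2 ^ k) => hm (av_lt (n := n) h2 l w)
    have a2 := fun w : Fin (2 ^ k) => hm (av_lt (n := n) h1 w l)
    simp only at a1 a2
    rw [heq] at a2
    exact (le_antisymm (a2 y) (a1 y)).trans (le_antisymm (a2 y') (a1 y')).symm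
  · have a1 := fun w : Fin (2 ^ k) => hm (av_lt (n := n) h2 l w)
    have a2 := fun w : Fin (2 ^ k) => hm (av_lt (n := n) h1 w l)
    simp only at a1 a2
    rw [heq] at a2
    exact (le_antisymm (a1 y) (a2 y)).trans (le_antisymm (a1 y') (a2 y')).symm

open Classical in
theorem alive_count (f : Fn n) (hf : LocMono f) {I : ℝ} (hI : InfluenceLe f I)
    (z : Fin (2 ^ k) → Bool) :
    ∑ i₀ : Fin n, ((univ.filter (fun ω : Fin n → Bool × Fin (2 ^ k) => Alive f z i₀ ω)).card : ℝ) ≤
      I * Fintype.card (Fin n → Bool × Fin (2 ^ k)) := by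
  set e := Equiv.arrowProdEquivProdArrow (Fin n) (fun _ => Bool) (fun _ => Fin (2 ^ k)) with he
  set g : (Fin n → Fin (2 ^ k)) → (Fin n → Bool) → Bool := fun l t =>
    f (bv n k z) (fun i => if t i then av n k (jm i true) (l i) else av n k (jm i false) (l i))
    with hg
  have h1 : ∀ (i₀ : Fin n) (ω : Fin n → Bool × Fin (2 ^ k)), Alive f z i₀ ω →
      g (e ω).2 (fl i₀ (e ω).1) ≠ g (e ω).2 (e ω).1 := by
    intro i₀ ω h
    have h2 := sandwich f hf z i₀ ω h (ω i₀).2
    have h3 : ∀ b : Bool, (fun i => if Function.update (e ω).1 i₀ b i = true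
        then av n k (jm i true) ((e ω).2 i) else av n k (jm i false) ((e ω).2 i)) =
        Function.update (jk n k ω) i₀ (av n k (jm i₀ b) (ω i₀).2) := by
      intro b
      funext i
      have e1 : (e ω).1 i = (ω i).1 := rfl
      have e2 : (e ω).2 i = (ω i).2 := rfl
      by_cases hi : i = i₀
      · subst hi
        simp only [Function.update_self, e2]
        cases b <;> simp
      · simp only [Function.update_of_ne hi, e1, e2, jk]
        cases (ω i).1 <;> simp
    have h4 : g (e ω).2 (Function.update (e ω).1 i₀ true) ≠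
        g (e ω).2 (Function.update (e ω).1 i₀ false) := by
      simp only [hg]
      rw [h3, h3]
      exact h2
    have h5 : Function.update (e ω).1 i₀ ((e ω).1 i₀) = (e ω).1 := Function.update_eq_self _ _
    rw [fl_apply]
    cases h6 : (e ω).1 i₀ with
    | true =>
      rw [h6] at h5
      rw [h5] at h4
      exact h4.symm
    | false =>
      rw [h6] at h5
      rw [h5] at h4
      exact h4
  calc ∑ i₀ : Fin n, ((univ.filter (fun ω : Fin n → Bool × Fin (2 ^ k) => Alive f z i₀ ω)).card : ℝ)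
      ≤ ∑ i₀ : Fin n, ∑ ω : Fin n → Bool × Fin (2 ^ k),
          (if g (e ω).2 (fl i₀ (e ω).1) ≠ g (e ω).2 (e ω).1 then (1 : ℝ) else 0) := by
        apply sum_le_sum
        intro i₀ _
        rw [card_filter]
        push_cast
        apply sum_le_sum
        intro ω _
        by_cases h : Alive f z i₀ ω
        · rw [if_pos h, if_pos (h1 i₀ ω h)]
        · rw [if_neg h]
          split_ifs <;> norm_num
    _ = ∑ i₀ : Fin n, ∑ q : (Fin n → Bool) × (Fin n → Fin (2 ^ k)),
          (if g q.2 (fl i₀ q.1) ≠ g q.2 q.1 then (1 : ℝ) else 0) := by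
        apply sum_congr rfl
        intro i₀ _
        exact Equiv.sum_comp e (fun q => if g q.2 (fl i₀ q.1) ≠ g q.2 q.1 then (1 : ℝ) else 0)
    _ = ∑ l : Fin n → Fin (2 ^ k), ∑ i₀ : Fin n, (piv (g l) i₀ : ℝ) := by
        have h2 : ∀ i₀ : Fin n, ∑ q : (Fin n → Bool) × (Fin n → Fin (2 ^ k)),
            (if g q.2 (fl i₀ q.1) ≠ g q.2 q.1 then (1 : ℝ) else 0) =
            ∑ l : Fin n → Fin (2 ^ k), (piv (g l) i₀ : ℝ) := by
          intro i₀
          rw [← univ_product_univ, sum_product, sum_comm]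
          apply sum_congr rfl
          intro l _
          rw [piv_eq]
        rw [sum_congr rfl (fun i₀ _ => h2 i₀), sum_comm]
    _ ≤ ∑ l : Fin n → Fin (2 ^ k), 2 ^ n * I := by
        apply sum_le_sum
        intro l _
        have h2 := hI (bv n k z) (fun i => av n k (jm i true) (l i))
          (fun i => av n k (jm i false) (l i))
        unfold totalInfluence at h2
        rw [div_le_iff₀ (by positivity)] at h2
        calc ∑ i₀ : Fin n, (piv (g l) i₀ : ℝ) ≤ I * 2 ^ n := h2
          _ = 2 ^ n * I := by ring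
    _ = I * Fintype.card (Fin n → Bool × Fin (2 ^ k)) := by
        rw [sum_const, card_univ, nsmul_eq_mul, Fintype.card_congr e, Fintype.card_prod]
        simp only [Fintype.card_fun, Fintype.card_bool, Fintype.card_fin]
        push_cast
        ring

end Pool.Agent.L0h73.UN
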