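import Pool.Agent.L0h73.UN.Alive
import Pool.Agent.L0h73.LT.Code

set_option autoImplicit false

/-! # The counting argument -/

namespace Pool.Agent.L0h73.UN

open Finset Pool.Agent.TH697.Form.ThreeSum
open Pool.Agent.L0h73.LT (av bv jm inp chain wcoding sum_card_pow pow_le_three thr_eq FewSub)

variable {n k s : ℕ}

theorem val_low (C : Circuit n s) (x : ∀ i, Item n n i) (j : Fin s) (h : C.low j = true) :
    C.val x j = C.fn j (x none) (fun i => x (some i)) := by
  rw [Circuit.val, if_pos h]

theorem val_up (C : Circuit n s) (x : ∀ i, Item n n i) (j : Fin s) (h : C.low j = false) :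
    C.val x j = decide (C.θ j (x none) < ∑ i, C.φ j i (x (some i)) +
      ∑ i : Fin s, if i < j ∧ C.val x i = true then C.wt j i else 0) := by
  rw [Circuit.val, if_neg (by rw [h]; exact Bool.false_ne_true)]
  congr 3
  apply sum_congr rfl
  intro i _
  by_cases h : i < j
  · simp [h]
  · simp [h]

theorem sum_inp (φ : Fin n → ℤ → ℝ) (z : Fin (2 ^ k) → Bool) (i₀ : Fin n)
    (ω : Fin n → Bool × Fin (2 ^ k)) (y : Fin (2 ^ k)) :
    ∑ i, φ i (inp n k z i₀ ω y (some i)) =
      ∑ i, (if i = i₀ then 0 else φ i (av n k (jm i (ω i).1) (ω i).2)) + φ i₀ (av n k 0 y) := by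
  classical
  rw [← Finset.add_sum_erase univ _ (mem_univ i₀), ← Finset.add_sum_erase univ (fun i =>
    if i = i₀ then 0 else φ i (av n k (jm i (ω i).1) (ω i).2)) (mem_univ i₀)]
  have h1 : inp n k z i₀ ω y (some i₀) = av n k 0 y := by simp [inp]
  have h3 : ∑ i ∈ univ.erase i₀, φ i (inp n k z i₀ ω y (some i)) =
      ∑ i ∈ univ.erase i₀, (if i = i₀ then 0 else φ i (av n k (jm i (ω i).1) (ω i).2)) := by
    apply sum_congr rfl
    intro i hi
    have hne := ne_of_mem_erase hi
    simp [inp, hne]
  rw [h1, h3, if_pos rfl]
  ring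

/-- the possible values of the gates in `A` as functions of the live number -/
def IsVec (C : Circuit n s) (k : ℕ) (i₀ : Fin n) (A : Finset (Fin s))
    (v : Fin s → Fin (2 ^ k) → Bool) : Prop :=
  (∀ j, j ∉ A → v j = fun _ => false) ∧ ∀ j ∈ A,
    (C.low j = true ∧ (Monotone (v j) ∨ Antitone (v j))) ∨
    (C.low j = false ∧ ∃ c : ℝ, v j = fun y : Fin (2 ^ k) => decide (c <
      C.φ j i₀ (av n k 0 y) + ∑ i, if i < j ∧ i ∈ A ∧ v i y = true then C.wt j i else 0))

theorem eq_of_chain {Y : Type} [Fintype Y] (h h' : Y → Bool) (hc : h ≤ h' ∨ h' ≤ h)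
    (hcard : (univ.filter (fun y => h y = true)).card = (univ.filter (fun y => h' y = true)).card) :
    h = h' := by
  classical
  have key : ∀ g g' : Y → Bool, g ≤ g' → (univ.filter (fun y => g y = true)).card =
      (univ.filter (fun y => g' y = true)).card → g = g' := by
    intro g g' hle hcard
    have h1 : univ.filter (fun y => g y = true) ⊆ univ.filter (fun y => g' y = true) := by
      intro y hy
      rw [mem_filter] at hy ⊢
      refine ⟨mem_univ _, ?_⟩
      have := hle y
      rw [hy.2] at this
      exact Bool.eq_true_of_true_le this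
    have h2 := eq_of_subset_of_card_le h1 hcard.ge
    funext y
    have h3 : y ∈ univ.filter (fun y => g y = true) ↔ y ∈ univ.filter (fun y => g' y = true) := by
      rw [h2]
    simp only [mem_filter, mem_univ, true_and] at h3
    exact Bool.eq_iff_iff.2 h3
  rcases hc with hc | hc
  · exact key h h' hc hcard
  · exact (key h' h hc hcard.symm).symm

theorem mono_chain {N : ℕ} (h h' : Fin N → Bool) (hm : Monotone h) (hm' : Monotone h') :
    h ≤ h' ∨ h' ≤ h := by
  by_contra hcon
  push Not at hcon
  obtain ⟨h1, h2⟩ := hcon
  rw [Pi.le_def] at h1 h2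
  push Not at h1 h2
  obtain ⟨y, hy⟩ := h1
  obtain ⟨y', hy'⟩ := h2
  rw [Bool.lt_iff] at hy hy'
  rcases le_total y y' with hle | hle
  · have := Bool.le_iff_imp.1 (hm hle) hy.2
    rw [hy'.1] at this
    exact Bool.false_ne_true this
  · have := Bool.le_iff_imp.1 (hm' hle) hy'.2
    rw [hy.1] at this
    exact Bool.false_ne_true this

theorem anti_chain {N : ℕ} (h h' : Fin N → Bool) (hm : Antitone h) (hm' : Antitone h') :
    h ≤ h' ∨ h' ≤ h := by
  by_contra hcon
  push Not at hcon
  obtain ⟨h1, h2⟩ := hcon
  rw [Pi.le_def] at h1 h2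
  push Not at h1 h2
  obtain ⟨y, hy⟩ := h1
  obtain ⟨y', hy'⟩ := h2
  rw [Bool.lt_iff] at hy hy'
  rcases le_total y y' with hle | hle
  · have := Bool.le_iff_imp.1 (hm' hle) hy'.2
    rw [hy.1] at this
    exact Bool.false_ne_true this
  · have := Bool.le_iff_imp.1 (hm hle) hy.2
    rw [hy'.1] at this
    exact Bool.false_ne_true this

open Classical in
theorem card_vec (C : Circuit n s) (i₀ : Fin n) (A : Finset (Fin s)) :
    (univ.filter (IsVec C k i₀ A)).card ≤ (2 * (2 ^ k + 1)) ^ A.card := by
  have hinj : Set.InjOn (fun v : Fin s → Fin (2 ^ k) → Bool =>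
      (fun j => (decide (Monotone (v j)), (univ.filter (fun y => v j y = true)).card)))
      (univ.filter (IsVec C k i₀ A) : Finset _) := by
    intro v hv v' hv' heq
    rw [mem_coe, mem_filter] at hv hv'
    obtain ⟨-, hv1, hv2⟩ := hv
    obtain ⟨-, hv1', hv2'⟩ := hv'
    have key : ∀ m : ℕ, ∀ j : Fin s, j.val = m → v j = v' j := by
      intro m
      induction m using Nat.strong_induction_on with
      | _ m ih =>
        intro j hj
        by_cases hA : j ∈ A
        · have hboth := congrFun heq j
          simp only [Prod.mk.injEq] at hboth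
          obtain ⟨hmon, hcard⟩ := hboth
          have hmon' : Monotone (v j) ↔ Monotone (v' j) := decide_eq_decide.1 hmon
          rcases hv2 j hA with ⟨hl, hd⟩ | ⟨hl, c, hc⟩
          · rcases hv2' j hA with ⟨-, hd'⟩ | ⟨hl', -⟩
            · by_cases h1 : Monotone (v j)
              · exact eq_of_chain _ _ (mono_chain _ _ h1 (hmon'.1 h1)) hcard
              · have h2 : Antitone (v j) := hd.resolve_left h1
                have h3 : Antitone (v' j) := hd'.resolve_left (fun h => h1 (hmon'.2 h))
                exact eq_of_chain _ _ (anti_chain _ _ h2 h3) hcard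
            · rw [hl] at hl'
              exact absurd hl' (by decide)
          · rcases hv2' j hA with ⟨hl', -⟩ | ⟨-, c', hc'⟩
            · rw [hl] at hl'
              exact absurd hl' (by decide)
            have e : ∀ y : Fin (2 ^ k), (∑ i, if i < j ∧ i ∈ A ∧ v i y = true then C.wt j i else 0) =
                ∑ i, if i < j ∧ i ∈ A ∧ v' i y = true then C.wt j i else 0 := by
              intro y
              apply sum_congr rfl
              intro i _
              by_cases h : i < j
              · rw [ih i.val (by have : i.val < j.val := h; omega) i rfl]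
              · simp [h]
            have hc2 : v j = fun y : Fin (2 ^ k) => decide (c < C.φ j i₀ (av n k 0 y) +
                ∑ i, if i < j ∧ i ∈ A ∧ v' i y = true then C.wt j i else 0) := by
              rw [hc]
              funext y
              rw [e y]
            rw [hc2, hc'] at hcard
            rw [hc2, hc']
            exact thr_eq _ c c' hcard
        · rw [hv1 j hA, hv1' j hA]
    funext j
    exact key _ j rfl
  have hmaps : ∀ v ∈ univ.filter (IsVec C k i₀ A),
      (fun j => (decide (Monotone (v j)), (univ.filter (fun y => v j y = true)).card)) ∈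
        Fintype.piFinset (fun j => if j ∈ A then (univ : Finset Bool) ×ˢ range (2 ^ k + 1)
          else {(true, 0)}) := by
    intro v hv
    rw [mem_filter] at hv
    rw [Fintype.mem_piFinset]
    intro j
    by_cases hA : j ∈ A
    · simp only [hA, if_true, mem_product, mem_range]
      refine ⟨mem_univ _, ?_⟩
      have h1 := card_le_univ (univ.filter (fun y => v j y = true))
      rw [Fintype.card_fin] at h1
      omega
    · simp only [hA, if_false, mem_singleton]
      rw [hv.2.1 j hA]
      have : Monotone (fun _ : Fin (2 ^ k) => false) := fun _ _ _ => le_rfl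
      simp [this]
  refine (card_le_card_of_injOn _ hmaps hinj).trans ?_
  rw [Fintype.card_piFinset]
  calc ∏ t : Fin s, (if t ∈ A then (univ : Finset Bool) ×ˢ range (2 ^ k + 1)
          else {(true, 0)}).card
      ≤ ∏ t : Fin s, (if t ∈ A then 2 * (2 ^ k + 1) else 1) := by
        apply Finset.prod_le_prod'
        intro t _
        split_ifs with h
        · rw [card_product, card_range, card_univ, Fintype.card_bool]
        · simp
    _ = (2 * (2 ^ k + 1)) ^ A.card := by
        rw [prod_ite, prod_const, prod_const_one, mul_one]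
        congr 2
        ext t; simp

/-- the gate is a threshold gate, or it depends on the live number -/
def Live (C : Circuit n s) (z : Fin (2 ^ k) → Bool) (i₀ : Fin n) (ω : Fin n → Bool × Fin (2 ^ k))
    (j : Fin s) : Prop :=
  C.low j = false ∨ Alive (C.fn j) z i₀ ω

open Classical in
/-- the inequality for a fixed place of the live number and fixed junk numbers -/
theorem fixed (P : Circuit n s) {D : ℕ} (hD : 1 ≤ D) (hP : FewSub D P.top)
    (hL : ∀ j, P.low j = true → LocMono (P.fn j)) (i₀ : Fin n)
    (ω : Fin n → Bool × Fin (2 ^ k)) :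
    ((2 ^ k : ℕ) : ℝ) * Real.log (4 / 3) ≤ Real.log (3 * D) +
      (∑ z : Fin (2 ^ k) → Bool,
        (Real.log 2 * ((univ.filter (fun y => P.eval (inp n k z i₀ ω y) ≠ z y)).card : ℝ) +
        Real.log (((s : ℝ) + 1) * D * (2 * (((2 ^ k : ℕ) : ℝ) + 1))) *
          ((univ.filter (fun t => Live P z i₀ ω t)).card : ℝ))) / 2 ^ (2 ^ k) := by
  choose S hS1 hS2 using hP
  set W : ℝ := ((s : ℝ) + 1) * D * (2 * (((2 ^ k : ℕ) : ℝ) + 1)) with hW
  have hD' : (1 : ℝ) ≤ D := by exact_mod_cast hD
  have h2k : (1 : ℝ) ≤ 2 * (((2 ^ k : ℕ) : ℝ) + 1) := by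
    have : (0 : ℝ) ≤ ((2 ^ k : ℕ) : ℝ) := Nat.cast_nonneg _
    linarith
  have hs1 : (1 : ℝ) ≤ (s : ℝ) + 1 := by
    have : (0 : ℝ) ≤ (s : ℝ) := Nat.cast_nonneg _
    linarith
  have hW1 : 1 ≤ W := by
    rw [hW]
    exact one_le_mul_of_one_le_of_one_le (one_le_mul_of_one_le_of_one_le hs1 hD') h2k
  set F : Finset (Fin s) → Finset (Fin (2 ^ k) → Bool) := fun A =>
    (S A ×ˢ univ.filter (IsVec P k i₀ A)).image
      (fun q => fun y => q.1 (fun t => q.2 t y)) with hF
  have hFcard : ∀ A, ((F A).card : ℝ) ≤
      (D : ℝ) ^ (A.card + 1) * (2 * (((2 ^ k : ℕ) : ℝ) + 1)) ^ A.card := by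
    intro A
    have h1 : (F A).card ≤ D ^ (A.card + 1) * (2 * (2 ^ k + 1)) ^ A.card := by
      rw [hF]
      refine card_image_le.trans ?_
      rw [card_product]
      exact Nat.mul_le_mul (hS1 A) (card_vec P i₀ A)
    exact_mod_cast h1
  have hFsum : ∑ A : Finset (Fin s), ((F A).card : ℝ) * (1 / W) ^ A.card ≤ 3 * D := by
    calc ∑ A : Finset (Fin s), ((F A).card : ℝ) * (1 / W) ^ A.card
        ≤ ∑ A : Finset (Fin s), (D : ℝ) * (1 / ((s : ℝ) + 1)) ^ A.card := by
          apply sum_le_sum
          intro A _
          calc ((F A).card : ℝ) * (1 / W) ^ A.card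
              ≤ ((D : ℝ) ^ (A.card + 1) * (2 * (((2 ^ k : ℕ) : ℝ) + 1)) ^ A.card) *
                  (1 / W) ^ A.card :=
                mul_le_mul_of_nonneg_right (hFcard A) (by positivity)
            _ = (D : ℝ) * (D * (2 * (((2 ^ k : ℕ) : ℝ) + 1)) * (1 / W)) ^ A.card := by
                rw [mul_pow (D * (2 * (((2 ^ k : ℕ) : ℝ) + 1))), mul_pow (D : ℝ), pow_succ]; ring
            _ = (D : ℝ) * (1 / ((s : ℝ) + 1)) ^ A.card := by
                congr 2
                rw [hW]
                field_simp
      _ = (D : ℝ) * (1 + 1 / ((s : ℝ) + 1)) ^ s := by rw [← mul_sum, sum_card_pow]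
      _ ≤ D * 3 := mul_le_mul_of_nonneg_left (pow_le_three s) (by positivity)
      _ = 3 * D := by ring
  have h := wcoding W (3 * D) hW1 (by positivity) F hFsum
    (fun z => univ.filter (fun t => Live P z i₀ ω t))
    (fun z => fun y => P.eval (inp n k z i₀ ω y)) (by
      intro z
      set A := univ.filter (fun t => Live P z i₀ ω t) with hA
      set y₀ : Fin (2 ^ k) := ⟨0, by positivity⟩ with hy₀
      set ρ : Fin s → Bool := fun t => P.val (inp n k z i₀ ω y₀) t with hρ
      have hdead : ∀ t, t ∉ A → ∀ y, P.val (inp n k z i₀ ω y) t = ρ t := by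
        intro t ht y
        have h1 : ¬ Live P z i₀ ω t := fun h => ht (by rw [hA, mem_filter]; exact ⟨mem_univ _, h⟩)
        unfold Live at h1
        push Not at h1
        have h2 : P.low t = true := by
          cases h3 : P.low t with
          | true => rfl
          | false => exact absurd h3 h1.1
        rw [hρ]
        simp only
        rw [val_low P _ t h2, val_low P _ t h2, inp_upd, inp_upd, inp_none, inp_none]
        by_contra hne
        exact h1.2 ⟨y, y₀, hne⟩
      rw [hF]
      simp only
      rw [mem_image]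
      refine ⟨(fun u => P.top (bv n k z) (A.piecewise u ρ),
        fun t => if t ∈ A then (fun y => P.val (inp n k z i₀ ω y) t) else fun _ => false),
        ?_, ?_⟩
      · rw [mem_product]
        refine ⟨hS2 A (bv n k z) ρ, ?_⟩
        rw [mem_filter]
        refine ⟨mem_univ _, fun t ht => by simp only [ht, if_false], fun t ht => ?_⟩
        simp only [ht, if_true]
        cases hlow : P.low t with
        | true =>
          left
          refine ⟨rfl, ?_⟩
          have h1 : (fun y => P.val (inp n k z i₀ ω y) t) = fun y : Fin (2 ^ k) =>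
              P.fn t (bv n k z) (Function.update (jk n k ω) i₀ (av n k 0 y)) := by
            funext y
            rw [val_low P _ t hlow, inp_upd, inp_none]
          rw [h1]
          have hav : Monotone (fun y : Fin (2 ^ k) => av n k 0 y) := by
            intro y y' hyy
            have h2 : ((y : ℕ) : ℤ) ≤ ((y' : ℕ) : ℤ) := by exact_mod_cast hyy
            simp only [av]
            linarith
          rcases hL t hlow (bv n k z) (jk n k ω) i₀ with hm | hm
          · exact Or.inl (fun y y' hyy => hm (hav hyy))
          · exact Or.inr (fun y y' hyy => hm (hav hyy))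
        | false =>
          right
          refine ⟨rfl, P.θ t (bv n k z) -
            ∑ i, (if i = i₀ then 0 else P.φ t i (av n k (jm i (ω i).1) (ω i).2)) -
            ∑ i, (if i < t ∧ i ∉ A ∧ ρ i = true then P.wt t i else 0), ?_⟩
          funext y
          rw [val_up P _ t hlow, sum_inp, inp_none]
          have e2 : ∑ i : Fin s,
              (if i < t ∧ P.val (inp n k z i₀ ω y) i = true then P.wt t i else 0) =
              ∑ i, (if i < t ∧ i ∈ A ∧ (if i ∈ A then (fun y => P.val (inp n k z i₀ ω y) i)
                else fun _ => false) y = true then P.wt t i else 0) +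
              ∑ i, (if i < t ∧ i ∉ A ∧ ρ i = true then P.wt t i else 0) := by
            rw [← sum_add_distrib]
            apply sum_congr rfl
            intro i _
            by_cases h1 : i < t
            · by_cases h2 : i ∈ A
              · simp [h1, h2]
              · rw [hdead i h2 y]
                simp [h1, h2]
            · simp [h1]
          rw [e2]
          apply decide_eq_decide.2
          constructor <;> intro h <;> linarith
      · funext y
        simp only
        unfold Circuit.eval
        rw [inp_none]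
        congr 1
        funext t
        by_cases ht : t ∈ A
        · rw [piecewise_eq_of_mem _ _ _ ht]
          simp only [ht, if_true]
        · rw [piecewise_eq_of_notMem _ _ _ ht, hdead t ht y])
  rw [Fintype.card_fin] at h
  exact h

end Pool.Agent.L0h73.UN
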