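import Pool.Agent.L0h73.LT.Defs

set_option autoImplicit false

/-! # Circuits of locally monotone gates -/

namespace Pool.Agent.L0h73.UN

open Finset Pool.Agent.TH697.Form.ThreeSum

/-- A function of the list `b` of the last `n` numbers and of the first `n` numbers. -/
abbrev Fn (n : ℕ) : Type := (Fin n → ℤ) → (Fin n → ℤ) → Bool

/-- If `b` and all but one of the first `n` numbers are fixed, then the function is monotone or
antitone in the remaining number (which of the two may depend on the fixed numbers). -/
def LocMono {n : ℕ} (f : Fn n) : Prop :=
  ∀ (b x : Fin n → ℤ) (i : Fin n),
    Monotone (fun a => f b (Function.update x i a)) ∨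
      Antitone (fun a => f b (Function.update x i a))

/-- For every `b` and every `i` the function is monotone in the `i`-th of the first `n` numbers, or
it is antitone in this number (which of the two may depend on `b` and on `i` only). -/
def Unate {n : ℕ} (f : Fn n) : Prop :=
  ∀ (b : Fin n → ℤ) (i : Fin n),
    (∀ x : Fin n → ℤ, Monotone (fun a => f b (Function.update x i a))) ∨
      ∀ x : Fin n → ℤ, Antitone (fun a => f b (Function.update x i a))

open Classical in
/-- How many of the first `n` numbers have an influence on the function? -/
noncomputable def supp {n : ℕ} (f : Fn n) : ℕ :=
  (univ.filter (fun i => ∃ (b x : Fin n → ℤ) (a : ℤ), f b (Function.update x i a) ≠ f b x)).card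

/-- The total influence of a function of `n` bits: the sum, over all bits, of the probability that a
change of the bit changes the value. -/
noncomputable def totalInfluence {n : ℕ} (g : (Fin n → Bool) → Bool) : ℝ :=
  (∑ i : Fin n, ((univ.filter (fun t : Fin n → Bool =>
    g (Function.update t i (!t i)) ≠ g t)).card : ℝ)) / 2 ^ n

/-- All restrictions of the function to two values `u i`, `v i` of each of the first `n` numbers, for
every `b`, have total influence at most `I`. -/
def InfluenceLe {n : ℕ} (f : Fn n) (I : ℝ) : Prop :=
  ∀ (b u v : Fin n → ℤ), totalInfluence (fun t => f b (fun i => if t i then u i else v i)) ≤ I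

/-- A circuit with `s` gates. If `low j` is true then the gate `j` computes the function `fn j` of all
the numbers. Otherwise it adds arbitrary functions `φ j i` of the single numbers `i` (of the first
`n`) and the real weights `wt j i` of the gates `i < j` with the value `true`, and compares the sum
with a threshold, which is an arbitrary function of the last `n` numbers. The output of the circuit
is a function of the last `n` numbers and of the values of the gates. -/
structure Circuit (n s : ℕ) where
  low : Fin s → Bool
  fn : Fin s → Fn n
  φ : Fin s → Fin n → ℤ → ℝ
  θ : Fin s → (Fin n → ℤ) → ℝ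
  wt : Fin s → Fin s → ℝ
  top : (Fin n → ℤ) → (Fin s → Bool) → Bool

/-- The value of the gate `j`. -/
noncomputable def Circuit.val {n s : ℕ} (C : Circuit n s) (x : ∀ i, Item n n i) (j : Fin s) :
    Bool :=
  if C.low j then C.fn j (x none) (fun i => x (some i)) else
    decide (C.θ j (x none) < ∑ i, C.φ j i (x (some i)) +
      ∑ i : Fin s, if h : i < j then (if C.val x i then C.wt j i else 0) else 0)
termination_by j.val
decreasing_by all_goals exact h

/-- The output of the circuit. -/
noncomputable def Circuit.eval {n s : ℕ} (C : Circuit n s) (x : ∀ i, Item n n i) : Bool :=
  C.top (x none) (C.val x)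

/-- The number of the threshold gates. -/
def Circuit.upper {n s : ℕ} (C : Circuit n s) : ℕ := (univ.filter (fun j => C.low j = false)).card

end Pool.Agent.L0h73.UN
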