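import Pool.Agent.L0h73.UN.Defs
import Pool.Agent.L0h73.UN.Infl

set_option autoImplicit false

/-! # Unate gates and polynomial gates -/

namespace Pool.Agent.L0h73.UN

open Finset Pool.Agent.TH697.Form.ThreeSum

variable {n : ℕ}

/-- For every `b`, the gate compares a polynomial of degree at most `d`, without squares of variables,
of monotone or antitone functions of the first `n` numbers with a threshold. The polynomial, the
functions and the threshold may depend on `b`. -/
def PolyGate (d : ℕ) (f : Fn n) : Prop :=
  ∀ b, ∃ (θ : ℝ) (c : Finset (Fin n) → ℝ) (φ : Fin n → ℤ → ℝ),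
    (∀ i, Monotone (φ i) ∨ Antitone (φ i)) ∧ (∀ S : Finset (Fin n), d < S.card → c S = 0) ∧
      ∀ x, f b x = decide (θ < ∑ S : Finset (Fin n), c S * ∏ i ∈ S, φ i (x i))

theorem Unate.locMono {f : Fn n} (h : Unate f) : LocMono f := by
  intro b x i
  rcases h b i with h | h
  · exact Or.inl (h x)
  · exact Or.inr (h x)

theorem piv_zero (f : Fn n) (b u v : Fin n → ℤ) (i : Fin n)
    (hi : ∀ (b x : Fin n → ℤ) (a : ℤ), f b (Function.update x i a) = f b x) :
    piv (fun t => f b (fun j => if t j then u j else v j)) i = 0 := by
  unfold piv
  rw [card_eq_zero, filter_eq_empty_iff]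
  intro t _ hne
  apply hne
  have h1 : (fun j => if fl i t j = true then u j else v j) =
      Function.update (fun j => if t j = true then u j else v j) i (if fl i t i = true then u i else v i) := by
    funext j
    by_cases hj : j = i
    · subst hj
      rw [Function.update_self]
    · rw [Function.update_of_ne hj, fl_ne hj]
  dsimp only
  rw [h1, hi]

open Classical in
/-- the numbers which have an influence -/
noncomputable def sset (f : Fn n) : Finset (Fin n) :=
  univ.filter (fun i => ∃ (b x : Fin n → ℤ) (a : ℤ), f b (Function.update x i a) ≠ f b x)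

theorem influence_eq (f : Fn n) (b u v : Fin n → ℤ) :
    totalInfluence (fun t => f b (fun j => if t j then u j else v j)) =
      (∑ i ∈ sset f, (piv (fun t => f b (fun j => if t j then u j else v j)) i : ℝ)) / 2 ^ n := by
  classical
  unfold totalInfluence
  congr 1
  symm
  apply sum_subset (subset_univ _)
  intro i _ hi
  have h1 : ∀ (b x : Fin n → ℤ) (a : ℤ), f b (Function.update x i a) = f b x := by
    intro b x a
    by_contra h
    exact hi (mem_filter.2 ⟨mem_univ _, b, x, a, h⟩)
  rw [piv_zero f b u v i h1]
  simp

theorem Unate.influence {f : Fn n} (h : Unate f) : InfluenceLe f (√(supp f : ℝ)) := by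
  classical
  intro b u v
  rw [influence_eq, div_le_iff₀ (by positivity)]
  set g : (Fin n → Bool) → Bool := fun t => f b (fun j => if t j then u j else v j) with hg
  have hdir : ∀ i : Fin n, ∃ e : Bool, ∀ t, g (fl i t) ≠ g t → g t = (if t i then e else !e) := by
    intro i
    have key : (∀ x : Fin n → ℤ, f b (Function.update x i (v i)) ≤ f b (Function.update x i (u i))) ∨
        ∀ x : Fin n → ℤ, f b (Function.update x i (u i)) ≤ f b (Function.update x i (v i)) := by
      rcases le_total (v i) (u i) with h1 | h1
      · rcases h b i with h2 | h2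
        · exact Or.inl fun x => h2 x h1
        · exact Or.inr fun x => h2 x h1
      · rcases h b i with h2 | h2
        · exact Or.inr fun x => h2 x h1
        · exact Or.inl fun x => h2 x h1
    have hx : ∀ (t : Fin n → Bool) (c : Bool), g (Function.update t i c) =
        f b (Function.update (fun j => if t j = true then u j else v j) i (if c = true then u i else v i)) := by
      intro t c
      simp only [hg]
      congr 1
      funext j
      by_cases hj : j = i
      · subst hj
        rw [Function.update_self, Function.update_self]
      · rw [Function.update_of_ne hj, Function.update_of_ne hj]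
    have hb : ∀ {p q : Bool}, p ≤ q → p ≠ q → p = false ∧ q = true := by decide
    rcases key with h1 | h1
    · refine ⟨true, fun t hne => ?_⟩
      have h2 := h1 (fun j => if t j = true then u j else v j)
      have e1 := hx t true
      have e2 := hx t false
      simp only [if_true, Bool.false_eq_true, if_false] at e1 e2
      rw [← e1, ← e2] at h2
      rw [fl_apply] at hne
      have h5 : Function.update t i (t i) = t := Function.update_eq_self _ _
      cases h6 : t i with
      | true =>
        rw [h6] at h5 hne
        rw [h5] at h2
        exact (hb h2 hne).2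
      | false =>
        rw [h6] at h5 hne
        rw [h5] at h2
        exact (hb h2 hne.symm).1
    · refine ⟨false, fun t hne => ?_⟩
      have h2 := h1 (fun j => if t j = true then u j else v j)
      have e1 := hx t true
      have e2 := hx t false
      simp only [if_true, Bool.false_eq_true, if_false] at e1 e2
      rw [← e1, ← e2] at h2
      rw [fl_apply] at hne
      have h5 : Function.update t i (t i) = t := Function.update_eq_self _ _
      cases h6 : t i with
      | true =>
        rw [h6] at h5 hne
        rw [h5] at h2
        exact (hb h2 hne.symm).1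
      | false =>
        rw [h6] at h5 hne
        rw [h5] at h2
        exact (hb h2 hne).2
  choose e he using hdir
  have h1 := unate_sum g (sset f) e he
  calc _ ≤ _ := h1
    _ = _ := by rw [mul_comm]; rfl

theorem poly_split (c : Finset (Fin n) → ℝ) (φ : Fin n → ℤ → ℝ) (x : Fin n → ℤ) (i : Fin n) :
    ∃ A B : ℝ, ∀ a : ℤ, ∑ S : Finset (Fin n), c S * ∏ j ∈ S, φ j (Function.update x i a j) =
      A + B * φ i a := by
  refine ⟨∑ T ∈ (univ.erase i).powerset, c T * ∏ j ∈ T, φ j (x j),
    ∑ T ∈ (univ.erase i).powerset, c (insert i T) * ∏ j ∈ T, φ j (x j), fun a => ?_⟩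
  rw [sum_split i, sum_mul, ← sum_add_distrib]
  apply sum_congr rfl
  intro T hT
  rw [mem_powerset] at hT
  have hi : i ∉ T := fun h => (mem_erase.1 (hT h)).1 rfl
  have h1 : ∏ j ∈ T, φ j (Function.update x i a j) = ∏ j ∈ T, φ j (x j) := by
    apply prod_congr rfl
    intro j hj
    rw [Function.update_of_ne (fun h : j = i => hi (by rw [← h]; exact hj))]
  rw [prod_insert hi, h1, Function.update_self]
  ring

theorem PolyGate.locMono {d : ℕ} {f : Fn n} (h : PolyGate d f) : LocMono f := by
  intro b x i
  obtain ⟨θ, c, φ, hφ, -, hf⟩ := h b
  obtain ⟨A, B, hAB⟩ := poly_split c φ x i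
  have h1 : (fun a => f b (Function.update x i a)) = fun a => decide (θ < A + B * φ i a) := by
    funext a
    rw [hf, hAB]
  rw [h1]
  have h2 : ∀ p q : ℝ, p ≤ q → decide (θ < p) ≤ decide (θ < q) := by
    intro p q hpq
    by_cases h3 : θ < p
    · rw [decide_eq_true h3, decide_eq_true (lt_of_lt_of_le h3 hpq)]
    · rw [decide_eq_false h3]
      exact Bool.false_le _
  rcases le_total 0 B with hB | hB
  · rcases hφ i with h3 | h3
    · exact Or.inl fun a a' haa => h2 _ _ (by have := mul_le_mul_of_nonneg_left (h3 haa) hB; linarith)
    · exact Or.inr fun a a' haa => h2 _ _ (by have := mul_le_mul_of_nonneg_left (h3 haa) hB; linarith)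
  · rcases hφ i with h3 | h3
    · exact Or.inr fun a a' haa => h2 _ _ (by have := mul_le_mul_of_nonpos_left (h3 haa) hB; linarith)
    · exact Or.inl fun a a' haa => h2 _ _ (by have := mul_le_mul_of_nonpos_left (h3 haa) hB; linarith)

theorem PolyGate.influence {d : ℕ} {f : Fn n} (h : PolyGate d f) :
    InfluenceLe f (2 * (supp f : ℝ) ^ (1 - (1 / 2 : ℝ) ^ d)) := by
  classical
  intro b u v
  obtain ⟨θ, c, φ, -, hc, hf⟩ := h b
  rw [influence_eq, div_le_iff₀ (by positivity)]
  have h1 : (fun t : Fin n → Bool => f b (fun j => if t j = true then u j else v j)) =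
      fun t => decide (θ < mpoly (fun i c => φ i (if c = true then u i else v i)) c t) := by
    funext t
    rw [hf]
    rfl
  rw [h1]
  have h2 := poly_sum (fun i c => φ i (if c = true then u i else v i)) (sset f) d c hc θ
  calc _ ≤ _ := h2
    _ = _ := by rw [mul_comm]; rfl

end Pool.Agent.L0h73.UN
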