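import Pool.Agent.L0h73.UN.Main
import Pool.Agent.L0h73.UN.Gates
import Pool.Agent.L0h73.LT.Cor

set_option autoImplicit false

/-! # The number of the gates -/

namespace Pool.Agent.L0h73.UN

open Finset Pool.Agent.TH697.Form.ThreeSum Pool.Agent.TH697.Form Pool.Agent.TH697.Row
open Pool.Agent.TH457.Ary.ZeroSum
open Pool.Agent.L0h73.LT (FewSub Simple log_bounds few_simple)

theorem influence_nonneg {n : ℕ} {f : Fn n} {I : ℝ} (h : InfluenceLe f I) : 0 ≤ I := by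
  refine le_trans ?_ (h (fun _ => 0) (fun _ => 0) (fun _ => 0))
  unfold totalInfluence
  exact div_nonneg (sum_nonneg fun _ _ => Nat.cast_nonneg _) (pow_nonneg (by norm_num) _)

theorem main {n s D : ℕ} (hn : 40 ≤ n) (hD : 1 ≤ D)
    {Ω : Type} [Fintype Ω] (μ : Ω → ℝ) (hμ : IsProb μ) (P : Ω → Circuit n s)
    (hP : ∀ r, FewSub D (P r).top) (I : Ω → Fin s → ℝ)
    (hL : ∀ r j, (P r).low j = true → LocMono ((P r).fn j) ∧ InfluenceLe ((P r).fn j) (I r j))
    (hA : ApproximatesOn μ (fun r => (P r).eval) (Valid n n) (zeroSum n)) :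
    (n : ℝ) ^ 2 ≤ 25 * (n * Real.logb 2 (3 * D) + Real.logb 2 (2 * ((s : ℝ) + 1) * D * n) *
      ∑ r, μ r * (n * (P r).upper + ∑ j ∈ univ.filter (fun j => (P r).low j = true), I r j)) := by
  set k := Nat.log 2 (n - 1) with hk
  have h1 : 2 ^ k ≤ n - 1 := Nat.pow_log_le_self 2 (by omega)
  have h2 : n - 1 < 2 ^ (k + 1) := Nat.lt_pow_succ_log_self (by norm_num) _
  have hn0 : (0 : ℝ) < n := by exact_mod_cast (by omega : 0 < n)
  have hD' : (1 : ℝ) ≤ D := by exact_mod_cast hD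
  have hs0 : (0 : ℝ) ≤ (s : ℝ) := Nat.cast_nonneg _
  have hlog : 0 < Real.log 2 := Real.log_pos (by norm_num)
  have hN1 : ((2 ^ k : ℕ) : ℝ) + 1 ≤ n := by
    have : 2 ^ k + 1 ≤ n := by omega
    exact_mod_cast this
  have hN2 : (n : ℝ) / 2 ≤ ((2 ^ k : ℕ) : ℝ) := by
    have : n ≤ 2 * 2 ^ k := by
      rw [pow_succ] at h2
      omega
    have h3 : (n : ℝ) ≤ 2 * ((2 ^ k : ℕ) : ℝ) := by exact_mod_cast this
    linarith
  have hmain := average (by omega : 2 ^ k + 1 ≤ n) hn hD μ hμ P hP I hL hA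
  set N : ℝ := ((2 ^ k : ℕ) : ℝ) with hN
  have hN0 : 0 ≤ N := Nat.cast_nonneg _
  set S : ℝ := ∑ r, μ r * (n * (P r).upper +
    ∑ j ∈ univ.filter (fun j => (P r).low j = true), I r j) with hS
  have hS0 : 0 ≤ S := by
    apply sum_nonneg
    intro r _
    apply mul_nonneg (hμ.nonneg r)
    have : 0 ≤ ∑ j ∈ univ.filter (fun j => (P r).low j = true), I r j :=
      sum_nonneg fun j hj => influence_nonneg (hL r j (mem_filter.1 hj).2).2
    positivity
  have hX1 : 1 ≤ ((s : ℝ) + 1) * D * (2 * (N + 1)) :=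
    one_le_mul_of_one_le_of_one_le (one_le_mul_of_one_le_of_one_le (by linarith) hD') (by linarith)
  have hX2 : ((s : ℝ) + 1) * D * (2 * (N + 1)) ≤ 2 * ((s : ℝ) + 1) * D * n := by
    have h3 := mul_le_mul_of_nonneg_left hN1 (show 0 ≤ 2 * ((s : ℝ) + 1) * D by positivity)
    linarith
  have hL1 : 0 ≤ Real.log (((s : ℝ) + 1) * D * (2 * (N + 1))) := Real.log_nonneg hX1
  have hL2 : Real.log (((s : ℝ) + 1) * D * (2 * (N + 1))) ≤
      Real.log (2 * ((s : ℝ) + 1) * D * n) :=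
    Real.log_le_log (by linarith) hX2
  have hfin : (49 / 1200 : ℝ) * (n : ℝ) ^ 2 * Real.log 2 ≤ n * Real.log (3 * D) +
      Real.log (2 * ((s : ℝ) + 1) * D * n) * S := by
    have h3 : (49 / 1200 : ℝ) * (n : ℝ) ^ 2 * Real.log 2 ≤ (n : ℝ) * ((49 / 600 : ℝ) * N * Real.log 2) := by
      have h4 : (n : ℝ) * (n / 2) ≤ n * N := mul_le_mul_of_nonneg_left hN2 hn0.le
      have h5 := mul_le_mul_of_nonneg_right h4 hlog.le
      nlinarith [h5]
    have h6 : Real.log (((s : ℝ) + 1) * D * (2 * (N + 1))) * S ≤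
        Real.log (2 * ((s : ℝ) + 1) * D * n) * S :=
      mul_le_mul_of_nonneg_right hL2 hS0
    linarith
  have hlb : ∀ x : ℝ, Real.logb 2 x = Real.log x / Real.log 2 := fun x => rfl
  rw [hlb, hlb]
  have hRHS : (n : ℝ) * (Real.log (3 * D) / Real.log 2) +
      Real.log (2 * ((s : ℝ) + 1) * D * n) / Real.log 2 * S =
      (n * Real.log (3 * D) + Real.log (2 * ((s : ℝ) + 1) * D * n) * S) / Real.log 2 := by
    field_simp
  rw [hRHS]
  have h7 : (49 / 1200 : ℝ) * (n : ℝ) ^ 2 ≤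
      (n * Real.log (3 * D) + Real.log (2 * ((s : ℝ) + 1) * D * n) * S) / Real.log 2 := by
    rw [le_div_iff₀ hlog]
    exact hfin
  have h8 : (0 : ℝ) ≤ (n : ℝ) ^ 2 := by positivity
  linarith

/-- the mean total influence of the low gates is large -/
theorem mean_bound {n s : ℕ} (hn : 10000 ≤ n) (hs : s ≤ n ^ 2)
    {Ω : Type} [Fintype Ω] (μ : Ω → ℝ) (hμ : IsProb μ) (P : Ω → Circuit n s)
    (hP : ∀ r, Simple (P r).top) (I : Ω → Fin s → ℝ)
    (hL : ∀ r j, (P r).low j = true → LocMono ((P r).fn j) ∧ InfluenceLe ((P r).fn j) (I r j))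
    (hA : ApproximatesOn μ (fun r => (P r).eval) (Valid n n) (zeroSum n))
    (hU : 700 * Real.logb 2 n * ∑ r, μ r * (P r).upper ≤ n) :
    (n : ℝ) ^ 2 ≤ 320 * Real.logb 2 n *
      ∑ r, μ r * ∑ j ∈ univ.filter (fun j => (P r).low j = true), I r j := by
  obtain ⟨hL13, hLn⟩ := log_bounds hn
  have hn' : (10000 : ℝ) ≤ n := by exact_mod_cast hn
  have hn0 : (0 : ℝ) < n := by linarith
  have h := main (by omega : 40 ≤ n) (Nat.one_le_iff_ne_zero.2 (by positivity)) μ hμ P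
    (fun r => few_simple (by omega) _ (hP r)) I hL hA
  set L := Real.logb 2 (n : ℝ) with hLdef
  set U := ∑ r, μ r * ((P r).upper : ℝ) with hUdef
  set Q := ∑ r, μ r * ∑ j ∈ univ.filter (fun j => (P r).low j = true), I r j with hQdef
  have hQ0 : 0 ≤ Q := sum_nonneg fun r _ => mul_nonneg (hμ.nonneg r)
    (sum_nonneg fun j hj => influence_nonneg (hL r j (mem_filter.1 hj).2).2)
  have hsum : ∑ r, μ r * (n * ((P r).upper : ℝ) +
      ∑ j ∈ univ.filter (fun j => (P r).low j = true), I r j) = n * U + Q := by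
    rw [hUdef, hQdef, mul_sum, ← sum_add_distrib]
    apply sum_congr rfl
    intro r _
    ring
  rw [hsum] at h
  have hU0 : 0 ≤ U := sum_nonneg (fun r _ => mul_nonneg (hμ.nonneg r) (Nat.cast_nonneg _))
  have hpow : ∀ a : ℕ, Real.logb 2 ((n : ℝ) ^ a) = a * L := by
    intro a
    rw [Real.logb_pow]
  have hn2 : (100000000 : ℝ) ≤ (n : ℝ) ^ 2 := by nlinarith
  have hD : (((n ^ 2 + 2) ^ 2 : ℕ) : ℝ) = ((n : ℝ) ^ 2 + 2) ^ 2 := by push_cast; ring
  rw [hD] at h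
  have hD2 : 3 * ((n : ℝ) ^ 2 + 2) ^ 2 ≤ 4 * (n : ℝ) ^ 4 := by
    have h4 : (n : ℝ) ^ 4 = ((n : ℝ) ^ 2) ^ 2 := by ring
    rw [h4]
    nlinarith
  have hlog4 : Real.logb 2 4 = 2 := by
    rw [show (4 : ℝ) = 2 ^ (2 : ℕ) by norm_num, Real.logb_pow, Real.logb_self_eq_one (by norm_num)]
    norm_num
  have h1 : Real.logb 2 (3 * ((n : ℝ) ^ 2 + 2) ^ 2) ≤ 4.2 * L := by
    have h2 : Real.logb 2 (3 * ((n : ℝ) ^ 2 + 2) ^ 2) ≤ Real.logb 2 (4 * (n : ℝ) ^ 4) :=
      Real.logb_le_logb_of_le (by norm_num) (by positivity) hD2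
    have h3 : Real.logb 2 (4 * (n : ℝ) ^ 4) = 2 + 4 * L := by
      rw [Real.logb_mul (by norm_num) (by positivity), hpow, hlog4]
      norm_num
    rw [h3] at h2
    linarith
  have h2 : Real.logb 2 (2 * ((s : ℝ) + 1) * ((n : ℝ) ^ 2 + 2) ^ 2 * n) ≤ 7.2 * L := by
    have hs' : (s : ℝ) ≤ (n : ℝ) ^ 2 := by exact_mod_cast hs
    have hs0 : (0 : ℝ) ≤ (s : ℝ) := Nat.cast_nonneg _
    have h3 : 2 * ((s : ℝ) + 1) * ((n : ℝ) ^ 2 + 2) ^ 2 * n ≤ 4 * (n : ℝ) ^ 7 := by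
      have h4 : 2 * ((s : ℝ) + 1) ≤ 2.002 * (n : ℝ) ^ 2 := by linarith
      have h5 : ((n : ℝ) ^ 2 + 2) ^ 2 ≤ (4 / 3) * (n : ℝ) ^ 4 := by linarith
      calc 2 * ((s : ℝ) + 1) * ((n : ℝ) ^ 2 + 2) ^ 2 * n
          ≤ (2.002 * (n : ℝ) ^ 2) * ((4 / 3) * (n : ℝ) ^ 4) * n := by
            apply mul_le_mul_of_nonneg_right _ hn0.le
            exact mul_le_mul h4 h5 (by positivity) (by positivity)
        _ = (2.002 * (4 / 3)) * (n : ℝ) ^ 7 := by ring
        _ ≤ 4 * (n : ℝ) ^ 7 := by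
            apply mul_le_mul_of_nonneg_right _ (by positivity)
            norm_num
    have h6 : Real.logb 2 (2 * ((s : ℝ) + 1) * ((n : ℝ) ^ 2 + 2) ^ 2 * n) ≤
        Real.logb 2 (4 * (n : ℝ) ^ 7) :=
      Real.logb_le_logb_of_le (by norm_num) (by positivity) h3
    have h7 : Real.logb 2 (4 * (n : ℝ) ^ 7) = 2 + 7 * L := by
      rw [Real.logb_mul (by norm_num) (by positivity), hpow, hlog4]
      norm_num
    rw [h7] at h6
    linarith
  have hR0 : 0 ≤ n * U + Q := by positivity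
  have h3 : (n : ℝ) ^ 2 ≤ 25 * (n * (4.2 * L) + 7.2 * L * (n * U + Q)) := by
    refine h.trans ?_
    have a1 := mul_le_mul_of_nonneg_left h1 hn0.le
    have a2 := mul_le_mul_of_nonneg_right h2 hR0
    linarith
  have h4 : (n : ℝ) * (700 * L) ≤ n * n := mul_le_mul_of_nonneg_left hLn hn0.le
  have h5 : (n : ℝ) * (700 * L * U) ≤ n * n := mul_le_mul_of_nonneg_left hU hn0.le
  have h6 : 0 ≤ L * Q := by positivity
  nlinarith [h3, h4, h5, h6]

/-- If all low gates have influence at most `I`, then there are many gates. -/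
theorem low_bound {n s : ℕ} (hn : 10000 ≤ n) (hs : s ≤ n ^ 2)
    {Ω : Type} [Fintype Ω] (μ : Ω → ℝ) (hμ : IsProb μ) (P : Ω → Circuit n s)
    (hP : ∀ r, Simple (P r).top) {I : ℝ} (hI0 : 0 ≤ I)
    (hL : ∀ r j, (P r).low j = true → LocMono ((P r).fn j) ∧ InfluenceLe ((P r).fn j) I)
    (hA : ApproximatesOn μ (fun r => (P r).eval) (Valid n n) (zeroSum n))
    (hU : 700 * Real.logb 2 n * ∑ r, μ r * (P r).upper ≤ n) :
    (n : ℝ) ^ 2 ≤ 320 * Real.logb 2 n * (s * I) := by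
  have hL13 := (log_bounds hn).1
  refine (mean_bound hn hs μ hμ P hP (fun _ _ => I) hL hA hU).trans
    (mul_le_mul_of_nonneg_left ?_ (by linarith))
  have h1 : ∀ r, ∑ _j ∈ univ.filter (fun j => (P r).low j = true), I ≤ s * I := by
    intro r
    rw [sum_const, nsmul_eq_mul]
    apply mul_le_mul_of_nonneg_right _ hI0
    have h2 := card_le_univ (univ.filter (fun j => (P r).low j = true))
    rw [Fintype.card_fin] at h2
    exact_mod_cast h2
  calc ∑ r, μ r * ∑ _j ∈ univ.filter (fun j => (P r).low j = true), I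
      ≤ ∑ r, μ r * (s * I) :=
        sum_le_sum fun r _ => mul_le_mul_of_nonneg_left (h1 r) (hμ.nonneg r)
    _ = s * I := by rw [← sum_mul, hμ.sum_one, one_mul]

theorem supp_le {n : ℕ} (f : Fn n) : supp f ≤ n := by
  classical
  unfold supp
  exact (card_le_univ _).trans (by rw [Fintype.card_fin])

theorem InfluenceLe.mono {n : ℕ} {f : Fn n} {I J : ℝ} (h : InfluenceLe f I) (hIJ : I ≤ J) :
    InfluenceLe f J := fun b u v => (h b u v).trans hIJ

/-- many unate gates -/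
theorem unate_bound {n s : ℕ} (hn : 10000 ≤ n)
    {Ω : Type} [Fintype Ω] (μ : Ω → ℝ) (hμ : IsProb μ) (P : Ω → Circuit n s)
    (hP : ∀ r, Simple (P r).top)
    (hL : ∀ r j, (P r).low j = true → Unate ((P r).fn j))
    (hA : ApproximatesOn μ (fun r => (P r).eval) (Valid n n) (zeroSum n))
    (hU : 700 * Real.logb 2 n * ∑ r, μ r * (P r).upper ≤ n) :
    (n : ℝ) * √(n : ℝ) ≤ 320 * Real.logb 2 n * s := by
  obtain ⟨hL13, hLn⟩ := log_bounds hn
  have hn' : (10000 : ℝ) ≤ n := by exact_mod_cast hn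
  have hn0 : (0 : ℝ) < n := by linarith
  have hsq : 0 < √(n : ℝ) := Real.sqrt_pos.2 hn0
  have hsq2 : √(n : ℝ) * √(n : ℝ) = n := Real.mul_self_sqrt hn0.le
  by_cases hs : s ≤ n ^ 2
  · have h := low_bound hn hs μ hμ P hP (Real.sqrt_nonneg (n : ℝ)) (fun r j hj =>
      ⟨(hL r j hj).locMono, (hL r j hj).influence.mono
        (Real.sqrt_le_sqrt (by exact_mod_cast supp_le _))⟩) hA hU
    have h3 : ((n : ℝ) * √(n : ℝ)) * √(n : ℝ) ≤ (320 * Real.logb 2 n * s) * √(n : ℝ) := by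
      calc ((n : ℝ) * √(n : ℝ)) * √(n : ℝ) = n * (√(n : ℝ) * √(n : ℝ)) := by ring
        _ = (n : ℝ) ^ 2 := by rw [hsq2]; ring
        _ ≤ _ := h
        _ = _ := by ring
    exact le_of_mul_le_mul_right h3 hsq
  · push Not at hs
    have hs' : (n : ℝ) ^ 2 ≤ s := by exact_mod_cast hs.le
    have h1 : √(n : ℝ) ≤ n := by
      have h2 : 1 ≤ √(n : ℝ) := by
        rw [Real.one_le_sqrt]
        linarith
      nlinarith
    have h3 : (n : ℝ) * √(n : ℝ) ≤ (n : ℝ) ^ 2 := by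
      rw [sq]
      exact mul_le_mul_of_nonneg_left h1 hn0.le
    have h4 : (1 : ℝ) ≤ 320 * Real.logb 2 n := by linarith
    have h5 : (s : ℝ) ≤ 320 * Real.logb 2 n * s := by
      have := mul_le_mul_of_nonneg_right h4 (Nat.cast_nonneg (α := ℝ) s)
      linarith
    linarith

/-- many polynomial gates -/
theorem poly_bound {n s d : ℕ} (hn : 10000 ≤ n)
    {Ω : Type} [Fintype Ω] (μ : Ω → ℝ) (hμ : IsProb μ) (P : Ω → Circuit n s)
    (hP : ∀ r, Simple (P r).top)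
    (hL : ∀ r j, (P r).low j = true → PolyGate d ((P r).fn j))
    (hA : ApproximatesOn μ (fun r => (P r).eval) (Valid n n) (zeroSum n))
    (hU : 700 * Real.logb 2 n * ∑ r, μ r * (P r).upper ≤ n) :
    (n : ℝ) ^ (1 + (1 / 2 : ℝ) ^ d) ≤ 640 * Real.logb 2 n * s := by
  obtain ⟨hL13, hLn⟩ := log_bounds hn
  have hn' : (10000 : ℝ) ≤ n := by exact_mod_cast hn
  have hn0 : (0 : ℝ) < n := by linarith
  have he0 : (0 : ℝ) ≤ (1 / 2 : ℝ) ^ d := by positivity
  have he1 : (1 / 2 : ℝ) ^ d ≤ 1 := pow_le_one₀ (by norm_num) (by norm_num)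
  set e : ℝ := (1 / 2 : ℝ) ^ d with he
  by_cases hs : s ≤ n ^ 2
  · have h := low_bound hn hs μ hμ P hP (show 0 ≤ 2 * (n : ℝ) ^ (1 - e) by positivity)
      (fun r j hj => ⟨(hL r j hj).locMono, (hL r j hj).influence.mono (by
        apply mul_le_mul_of_nonneg_left _ (by norm_num)
        exact Real.rpow_le_rpow (Nat.cast_nonneg _) (by exact_mod_cast supp_le _)
          (by linarith))⟩) hA hU
    have hpos : 0 < (n : ℝ) ^ (1 - e) := Real.rpow_pos_of_pos hn0 _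
    have h3 : (n : ℝ) ^ (1 + e) * (n : ℝ) ^ (1 - e) ≤ (640 * Real.logb 2 n * s) * (n : ℝ) ^ (1 - e) := by
      calc (n : ℝ) ^ (1 + e) * (n : ℝ) ^ (1 - e) = (n : ℝ) ^ (2 : ℝ) := by
            rw [← Real.rpow_add hn0]
            congr 1
            ring
        _ = (n : ℝ) ^ 2 := Real.rpow_two _
        _ ≤ _ := h
        _ = _ := by ring
    exact le_of_mul_le_mul_right h3 hpos
  · push Not at hs
    have hs' : (n : ℝ) ^ 2 ≤ s := by exact_mod_cast hs.le
    have h3 : (n : ℝ) ^ (1 + e) ≤ (n : ℝ) ^ 2 := by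
      rw [← Real.rpow_two]
      exact Real.rpow_le_rpow_of_exponent_le (by linarith) (by linarith)
    have h4 : (1 : ℝ) ≤ 640 * Real.logb 2 n := by linarith
    have h5 : (s : ℝ) ≤ 640 * Real.logb 2 n * s := by
      have := mul_le_mul_of_nonneg_right h4 (Nat.cast_nonneg (α := ℝ) s)
      linarith
    linarith

end Pool.Agent.L0h73.UN
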